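import Pool.Agent.U365.POW.E
import Pool.Agent.Results.MP_2a5a28_nt.WindowsWithoutExceptions

/-!
# The abc conjecture over the integers of `ℚ(√5)` for all triples with height near `s(m)`, `m - φ(m)` or `α m + β f(m)`

Let `K = ℚ(√5)` and let `H` and `rad` be the height and the radical of the problem. Let `s(m)` be the sum of the
proper divisors of `m`. Let `G` have steps bounded below by a positive constant and growth at most `v ^ d`, for
example `G v = v`, `K = ℚ(√5)`, `κ` real, `θ ≥ 0` and `e = 20 d / 37 + θ < 1`. For a set of `m` of lower density at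
least `1 - e`: ALL triples `a + b + c = 0`, `abc ≠ 0`, of integers of `K` in lowest terms whose height differs from `G
(s(m))` by at most `s(m) ^ θ` satisfy `rad > κ H`; and the same holds for `m - φ(m)` in place of `s(m)`. More
precisely this holds for almost all `m` with a divisor `≥ m ^ (e + ρ)` which is a prime or the product of two
different primes, and for the values `g = α m + β f(m)` of multiplicative functions with `f p = p + c` at the primes,
uniformly in `|α|, |β| ≤ N ^ δ` and with a power saving in the number of the exceptional `m`.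

Here `κ` is any constant, so the inequality is stronger than the one in question. Proof. The starting theorem
`ExceptionalSet` of this problem bounds the number of the classes of the exceptional triples with height `≤ X` by `X ^
(20 / 37 + ε)`; this bounds the number of their heights. Let `m = k v p` with large primes `p ≠ v`. Then `g = A v p +
B (v + p) + B c`, `A = α k + β f(k)`, `B = β c f(k)`, and so `(A v + B) (A p + B) = A g + B² - A B c`: for given `g`,
`k`, `α`, `β` there are only `N^o(1)` possibilities for `p` and `v` (tool `Pool.Agent.U365.POW`).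
-/

set_option autoImplicit false

namespace Pool.Agent.Results.MP_2a5a28_nt.AliquotValues

open NumberField
open ExceptionalSet (Triple height rad)
open WindowsWithoutExceptions (Exc count)
open Pool.Agent.U365.POW (Values Dens values_set values_mono dens_mono)
open Pool.Agent.N733.TG (Expanding)

/-- all triples `a + b + c = 0`, `abc ≠ 0`, in lowest terms with `|H - G v| ≤ v ^ θ` satisfy `rad > κ H` -/
def Near (K : Type) [Field K] [NumberField K] (κ : ℝ) (G : ℕ → ℝ) (θ : ℝ) (v : ℕ) : Prop :=
  ∀ t : 𝓞 K × 𝓞 K × 𝓞 K, Triple t → |height t - G v| ≤ (v : ℝ) ^ θ → κ * height t < rad t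

lemma near_of {K : Type} [Field K] [NumberField K] {κ θ : ℝ} {G : ℕ → ℝ} {v : ℕ}
    (h : ∀ t ∈ Exc K κ, ¬ |t - G v| ≤ (v : ℝ) ^ θ) : Near K κ G θ v := by
  intro t ht hw
  by_contra hcon
  push Not at hcon
  exact h (height t) ⟨t, ht, rfl, hcon⟩ hw

/-- **Theorem.** Let `G` have steps `≥ a > 0` and growth at most `v ^ d`, `K = ℚ(√5)`, `κ` real, `θ ≥ 0` and `e = 20 d /
37 + θ < 1`. For every `ρ > 0` the property `Near` holds for the values of similar functions as the aliquot sum
(`Values`: for `s(m)`, for `m - φ(m)` and for all `α m + β f(m)`, for almost all the `m` with a divisor `≥ m ^ (e +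
ρ)` which is a prime or the product of two different primes), and it holds for `s(m)` and `m - φ(m)` for a set of `m`
of lower density at least `1 - e`. -/
theorem result : ∀ (G : ℕ → ℝ) (d : ℝ), Expanding G d → ∀ (K : Type) [Field K] [NumberField K] (κ : ℝ) (θ : ℝ),
    Module.finrank ℚ K = 2 → (∃ s : K, s ^ 2 = 5) → 0 ≤ θ → d * (20 / 37) + θ < 1 →
    (∀ ρ : ℝ, 0 < ρ → Values (d * (20 / 37) + θ + ρ) (Near K κ G θ)) ∧
      Dens (1 - (d * (20 / 37) + θ)) (Near K κ G θ) := by
  intro G d hG K _ _ κ θ hK h5 hθ h1
  obtain ⟨h2, h3⟩ := values_set (Exc K κ) (fun x : ℝ => x) hG (s := (20 / 37)) (by norm_num) hθ h1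
    (fun ε hε => count hK h5 κ ε hε)
  have hm : ∀ g : ℕ, (∀ t, |t - G g| ≤ (g : ℝ) ^ θ → t ∉ (Exc K κ)) → Near K κ G θ g :=
    fun g hg => near_of (fun t ht hw => hg t hw ht)
  exact ⟨fun ρ hρ => values_mono (h2 ρ hρ) hm, dens_mono h3 le_rfl hm⟩

end Pool.Agent.Results.MP_2a5a28_nt.AliquotValues
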