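import Pool.Agent.U536.CF.F
import Pool.Agent.Results.MP_2a5a28_nt.WindowsWithoutExceptions

/-!
# The abc conjecture over the integers of `ℚ(√5)` for all triples with height near an integer with a large common factor with a value of `f`

Let `K = ℚ(√5)` and let `H` and `rad` be the height and the radical of the problem. Let `f` be a positive
multiplicative function of at most polynomial growth such that `f p ≤ M p` for the large primes `p`, with different
values at different large primes; for example Euler's function or the sum of the divisors. Let `G` have steps bounded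
below by a positive constant and growth at most `v^d`, for example `α v^d`. Let `b < 1` and `0 ≤ c < 2 b - 1`. For all
`m ≤ N` but `N exp (-(log N)^c)`, for EVERY integer `w ≥ exp ((log N)^b)` with `gcd(w, f(m)) ≥ w^ρ`: ALL triples `a +
b + c = 0`, `abc ≠ 0`, of integers of `K` in lowest terms whose height differs from `G w` by at most `w ^ θ` satisfy
`rad > κ H`, if `K = ℚ(√5)`, `κ` real, `θ ≥ 0` and `20 d / 37 + θ < ρ ≤ 1`. The integers `w` include all large
divisors of `f(m)` and their multiples by small integers; for Euler's function, the orders of the elements of the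
group of units modulo `m`.

Here `κ` is any constant, so the inequality is stronger than the one in question. Proof. The tool `Pool.Agent.U536.CF`
bounds the number of the `m ≤ N` for which such a `w` lies in a given set with a power saving, by Hölder's inequality
for the number of the ordered factorizations. The starting theorem `ExceptionalSet` of this problem bounds the number
of the classes of the exceptional triples with height `≤ X` by `X ^ (20 / 37 + ε)`; this bounds the number of their
heights.
-/

set_option autoImplicit false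

namespace Pool.Agent.Results.MP_2a5a28_nt.CommonFactors

open NumberField
open ExceptionalSet (Triple height rad)
open WindowsWithoutExceptions (Exc count)
open Pool.Agent.N733.TG (LM Expanding lm_totient lm_sigma expanding_pow)
open Pool.Agent.U536.CF (Common common_windows common_of_dvd common_order)

/-- all triples `a + b + c = 0`, `abc ≠ 0`, in lowest terms with `|H - G v| ≤ v ^ θ` satisfy `rad > κ H` -/
def Near (K : Type) [Field K] [NumberField K] (κ : ℝ) (G : ℕ → ℝ) (θ : ℝ) (v : ℕ) : Prop :=
  ∀ t : 𝓞 K × 𝓞 K × 𝓞 K, Triple t → |height t - G v| ≤ (v : ℝ) ^ θ → κ * height t < rad t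

lemma near_of {K : Type} [Field K] [NumberField K] {κ θ : ℝ} {G : ℕ → ℝ} {v : ℕ}
    (h : ∀ t ∈ Exc K κ, ¬ |t - G v| ≤ (v : ℝ) ^ θ) : Near K κ G θ v := by
  intro t ht hw
  by_contra hcon
  push Not at hcon
  exact h (height t) ⟨t, ht, rfl, hcon⟩ hw

/-- **The abc conjecture over the integers of `ℚ(√5)` for all triples with height near all integers with a large common
factor with a value of a multiplicative function.** Let `f` be multiplicative and positive, of at most polynomial
growth, with `f p ≤ M p` at the large primes, and injective there. Let `G` have steps `≥ a > 0` and growth at most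
`v^d`. Let `b < 1` and `0 ≤ c < 2 b - 1`, `K = ℚ(√5)`, `κ` real, `θ ≥ 0` and `20 d / 37 + θ < ρ ≤ 1`. For all large
`N`, for all `m ≤ N` but `N exp (-(log N)^c)`, the property `Near` holds at EVERY integer `w ≥ exp ((log N)^b)` with
`gcd(w, f(m)) ≥ w^ρ`. All divisors `w ≥ exp ((log N)^b)` of `f(m)` are such integers `w`, and for Euler's function the
orders `≥ exp ((log N)^b)` of the units modulo `m`. Euler's function and the sum of the divisors are examples of `f`,
and `α v^d` with `α > 0`, `d ≥ 1` is an example of `G`. -/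
theorem result :
    (∀ f : ℕ → ℕ, LM f → ∀ (G : ℕ → ℝ) (d : ℝ), Expanding G d → ∀ (K : Type) [Field K] [NumberField K] (κ : ℝ)
      (θ ρ b c : ℝ), Module.finrank ℚ K = 2 → (∃ s : K, s ^ 2 = 5) → 0 ≤ θ → d * (20 / 37) + θ < ρ → ρ ≤ 1 → b < 1 → 0 ≤ c → c < 2 * b - 1 →
      ∃ N₀ : ℕ, ∀ N : ℕ, N₀ ≤ N →
        ({m : ℕ | 1 ≤ m ∧ m ≤ N ∧ ¬ ∀ w : ℕ, Common f b ρ N m w → Near K κ G θ w}.ncard : ℝ) ≤
          N * Real.exp (-(Real.log N ^ c))) ∧
    (LM Nat.totient ∧ LM (fun m => ∑ d ∈ m.divisors, d)) ∧
    (∀ α d : ℝ, 0 < α → 1 ≤ d → Expanding (fun v => α * (v : ℝ) ^ d) d) ∧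
    (∀ (f : ℕ → ℕ) (b ρ : ℝ) (N m w : ℕ), ρ ≤ 1 → Real.exp (Real.log N ^ b) ≤ (w : ℝ) → w ∣ f m → Common f b ρ N m w) ∧
    ∀ (b ρ : ℝ) (N m : ℕ), ρ ≤ 1 → ∀ x : (ZMod m)ˣ, Real.exp (Real.log N ^ b) ≤ (orderOf x : ℝ) →
      Common Nat.totient b ρ N m (orderOf x) := by
  refine ⟨?_, ⟨lm_totient, lm_sigma⟩, fun α d hα hd => expanding_pow hα hd, fun f b ρ N m w hρ hw hd => common_of_dvd hρ hw hd,
    fun b ρ N m hρ x hx => common_order hρ x hx⟩
  intro f hf G d hG K _ _ κ θ ρ b c hK h5 hθ h1 hρ hb hc hcb
  obtain ⟨N₀, hN₀⟩ := common_windows (Exc K κ) (fun x : ℝ => x) hf hG (s := (20 / 37)) (by norm_num) hθ h1 hρ hb hc hcb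
    (fun ε hε => count hK h5 κ ε hε)
  refine ⟨N₀, fun N hN => le_trans (Nat.cast_le.2 (Set.ncard_le_ncard ?_ ?_)) (hN₀ N hN)⟩
  · rintro m ⟨h2, h3, h4⟩
    push Not at h4
    obtain ⟨w, hw, h5⟩ := h4
    refine ⟨h2, h3, w, hw, ?_⟩
    by_contra hcon
    push Not at hcon
    exact h5 (near_of (fun t ht => not_le.2 (hcon t ht)))
  · exact (Set.finite_Icc 1 N).subset fun m hm => ⟨hm.1, hm.2.1⟩

end Pool.Agent.Results.MP_2a5a28_nt.CommonFactors
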