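import Mathlib
import Pool.Agent.U624.Ico.Main
import Pool.Agent.Y382.Gold

/-!
# The abc conjecture over `ℤ[(1 + √5) / 2]` and the equation `x ^ 2 + y ^ 3 = 1728 z ^ 5`

The abc conjecture over the integers of `ℚ(√5)` is equivalent to the inequality

  `height(x, y) ≤ C(ε) rad(z) ^ (6 + ε)`,  `height(x, y) = ∏ max (|x| ^ 2, |y| ^ 3)` over the two embeddings,

for the solutions of the one equation `x ^ 2 + y ^ 3 = 1728 z ^ 5` whose common divisors of `x` and `y` divide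
`30 ^ 10`; also to the same inequality for the solutions `(T(u,v), H(u,v), f(u,v))` given by Klein's icosahedral
forms, for which the exponent `6` is the best possible.
-/

set_option autoImplicit false

namespace Pool.Agent.Results.MP_2a5a28_nt.IcosahedralEquation

open NumberField IsDedekindDomain

variable {K : Type} [Field K] [NumberField K]

/-- the triples in lowest terms with `a + b + c = 0` and `abc ≠ 0` -/
structure Triple (t : 𝓞 K × 𝓞 K × 𝓞 K) : Prop where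
  sum : t.1 + t.2.1 + t.2.2 = 0
  ne : t.1 * t.2.1 * t.2.2 ≠ 0
  cop : Ideal.span {t.1, t.2.1, t.2.2} = (⊤ : Ideal (𝓞 K))

/-- the height `H(a, b, c)`: the product over the field embeddings `φ : K → ℂ` (two real ones when
`K = ℚ(√5)`) of `max (|φ a|, |φ b|, |φ c|)` -/
noncomputable def tripleHeight (t : 𝓞 K × 𝓞 K × 𝓞 K) : ℝ :=
  ∏ φ : K →+* ℂ, max ‖φ t.1‖ (max ‖φ t.2.1‖ ‖φ t.2.2‖)

/-- the radical of `n`: the product of the norms of the prime ideals dividing `n` -/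
noncomputable def rad (n : 𝓞 K) : ℝ :=
  ∏ᶠ (P : HeightOneSpectrum (𝓞 K)) (_ : n ∈ P.asIdeal), (Ideal.absNorm P.asIdeal : ℝ)

/-- the solutions of `x ^ 2 + y ^ 3 = 1728 z ^ 5` with `z ≠ 0` for which all common divisors of `x` and `y`
divide `30 ^ 10` -/
structure Solution (x y z : 𝓞 K) : Prop where
  equation : x ^ 2 + y ^ 3 = 1728 * z ^ 5
  z_ne_zero : z ≠ 0
  common_divisors : ∀ d : 𝓞 K, d ∣ x → d ∣ y → d ∣ 30 ^ 10

/-- the height of a solution: the product of `max (|φ x| ^ 2, |φ y| ^ 3)` over the field embeddings `φ` -/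
noncomputable def height (x y : 𝓞 K) : ℝ := ∏ φ : K →+* ℂ, max (‖φ x‖ ^ 2) (‖φ y‖ ^ 3)

/-- the icosahedral form of degree 12 -/
def f (u v : 𝓞 K) : 𝓞 K := u * v * (u ^ 10 + 11 * u ^ 5 * v ^ 5 - v ^ 10)

/-- the icosahedral form of degree 20 -/
def H (u v : 𝓞 K) : 𝓞 K :=
  -(u ^ 20 + v ^ 20) + 228 * (u ^ 15 * v ^ 5 - u ^ 5 * v ^ 15) - 494 * u ^ 10 * v ^ 10

/-- the icosahedral form of degree 30 -/
def T (u v : 𝓞 K) : 𝓞 K :=
  (u ^ 30 + v ^ 30) + 522 * (u ^ 25 * v ^ 5 - u ^ 5 * v ^ 25) - 10005 * (u ^ 20 * v ^ 10 + u ^ 10 * v ^ 20)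

variable (K)

/-- the abc conjecture over the integers of `K` -/
def Abc : Prop := ∀ ε : ℝ, 0 < ε → ∃ C : ℝ, ∀ t : 𝓞 K × 𝓞 K × 𝓞 K, Triple t →
  tripleHeight t ≤ C * rad (t.1 * t.2.1 * t.2.2) ^ (1 + ε)

/-- the triple `(a, b, c)` in lowest terms arises from a solution `x ^ 2 + y ^ 3 = 1728 z ^ 5` by division of
`x ^ 2`, `y ^ 3` and `-1728 z ^ 5` by a common factor `g` -/
def FromSolution (t : 𝓞 K × 𝓞 K × 𝓞 K) : Prop :=
  ∃ x y z g : 𝓞 K, Solution x y z ∧ g * t.1 = x ^ 2 ∧ g * t.2.1 = y ^ 3 ∧ g * t.2.2 = -(1728 * z ^ 5)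

/-- the abc inequality for the triples which arise from solutions of the equation -/
def AbcOnSolutions : Prop := ∀ ε : ℝ, 0 < ε → ∃ C : ℝ, ∀ t : 𝓞 K × 𝓞 K × 𝓞 K, Triple t → FromSolution K t →
  tripleHeight t ≤ C * rad (t.1 * t.2.1 * t.2.2) ^ (1 + ε)

/-- the inequality for the radical of `z` alone, for all solutions -/
def RadicalOfZ : Prop := ∀ ε : ℝ, 0 < ε → ∃ C : ℝ, ∀ x y z : 𝓞 K, Solution x y z →
  height x y ≤ C * rad z ^ (6 + ε)

/-- the inequality for the radical of `z` alone, for the solutions given by the icosahedral forms -/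
def RadicalOfForm : Prop := ∀ ε : ℝ, 0 < ε → ∃ C : ℝ, ∀ u v : 𝓞 K, IsCoprime u v → f u v ≠ 0 →
  height (T u v) (H u v) ≤ C * rad (f u v) ^ (6 + ε)

variable {K}

theorem cop_of_triple {t : 𝓞 K × 𝓞 K × 𝓞 K} (h : Triple t) : IsCoprime t.1 t.2.1 := by
  have h1 : (1 : 𝓞 K) ∈ Ideal.span {t.1, t.2.1, t.2.2} := by rw [h.cop]; trivial
  rw [Ideal.mem_span_insert] at h1
  obtain ⟨r, w, hw, h2⟩ := h1
  rw [Ideal.mem_span_pair] at hw
  obtain ⟨p, q, hpq⟩ := hw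
  refine ⟨r - q, p - q, ?_⟩
  have h3 := h.sum
  rw [h2, ← hpq]
  linear_combination (-q) * h3

theorem one_le_tripleHeight {t : 𝓞 K × 𝓞 K × 𝓞 K} (h : Triple t) : 1 ≤ tripleHeight t :=
  Pool.Agent.U624.Ico.one_le_ht3 fun h0 => h.ne (by rw [h0]; ring)

theorem result : ∀ (K : Type) [Field K] [NumberField K], Module.finrank ℚ K = 2 → (∃ s : K, s ^ 2 = 5) →
    List.TFAE [Abc K, AbcOnSolutions K, RadicalOfZ K, RadicalOfForm K] ∧
    (∀ u v : 𝓞 K, IsCoprime u v → f u v ≠ 0 → Solution (T u v) (H u v) (f u v)) ∧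
    (∃ C : ℝ, ∀ N : ℝ, ∃ u v : 𝓞 K, IsCoprime u v ∧ f u v ≠ 0 ∧ N ≤ height (T u v) (H u v) ∧
      rad (f u v) ^ 6 ≤ C * height (T u v) (H u v)) := by
  intro K _ _ hK ⟨s, hs⟩
  have hpid : IsPrincipalIdealRing (𝓞 K) := Pool.Agent.Y382.Gold.pid hK hs
  have hsol : ∀ x y z : 𝓞 K, Solution x y z ↔ Pool.Agent.U624.Ico.Sol x y z :=
    fun x y z => ⟨fun h => ⟨h.1, h.2, h.3⟩, fun h => ⟨h.1, h.2, h.3⟩⟩
  -- the golden section
  obtain ⟨e, he'⟩ : ∃ e : 𝓞 K, (e : K) = (1 + s) / 2 := ⟨⟨_, Pool.Agent.Y382.Gold.phi_int hs⟩, rfl⟩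
  obtain ⟨h, hh⟩ : ∃ h, h = e - 1 := ⟨_, rfl⟩
  have heh : e = h + 1 := by rw [hh]; ring
  have he : e * h = 1 := by
    apply RingOfIntegers.ext
    rw [hh]
    have : ((e * (e - 1) : 𝓞 K) : K) = (e : K) * ((e : K) - 1) := rfl
    rw [this, he']
    have h1 : ((1 : 𝓞 K) : K) = 1 := rfl
    rw [h1]
    field_simp
    linear_combination hs
  refine ⟨?_, ?_, ?_⟩
  · -- the two ways of writing the inequalities
    have c1 : Abc K ↔ ∀ ε : ℝ, 0 < ε → ∃ c : ℝ, 0 < c ∧ ∀ t : 𝓞 K × 𝓞 K × 𝓞 K, Triple t →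
        c * tripleHeight t ^ (1 / 1 - ε) ≤ rad (t.1 * t.2.1 * t.2.2) :=
      Pool.Agent.U624.Ico.conv (fun t : 𝓞 K × 𝓞 K × 𝓞 K => Triple t) tripleHeight
        (fun t => rad (t.1 * t.2.1 * t.2.2)) (fun t ht => one_le_tripleHeight ht)
        (fun t ht => Pool.Agent.U624.Ico.one_le_rad ht.ne) one_pos
    have c2 : AbcOnSolutions K ↔ ∀ ε : ℝ, 0 < ε → ∃ c : ℝ, 0 < c ∧ ∀ t : 𝓞 K × 𝓞 K × 𝓞 K,
        (Triple t ∧ FromSolution K t) →
        c * tripleHeight t ^ (1 / 1 - ε) ≤ rad (t.1 * t.2.1 * t.2.2) := by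
      rw [← Pool.Agent.U624.Ico.conv (fun t : 𝓞 K × 𝓞 K × 𝓞 K => Triple t ∧ FromSolution K t) tripleHeight
        (fun t => rad (t.1 * t.2.1 * t.2.2)) (fun t ht => one_le_tripleHeight ht.1)
        (fun t ht => Pool.Agent.U624.Ico.one_le_rad ht.1.ne) one_pos]
      constructor
      · intro g ε hε
        obtain ⟨C, hC⟩ := g ε hε
        exact ⟨C, fun t ht => hC t ht.1 ht.2⟩
      · intro g ε hε
        obtain ⟨C, hC⟩ := g ε hε
        exact ⟨C, fun t h1 h2 => hC t ⟨h1, h2⟩⟩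
    have c3 : RadicalOfZ K ↔ ∀ ε : ℝ, 0 < ε → ∃ c : ℝ, 0 < c ∧ ∀ x y z : 𝓞 K,
        Pool.Agent.U624.Ico.Sol x y z → c * height x y ^ (1 / 6 - ε) ≤ rad z := by
      have := Pool.Agent.U624.Ico.conv (fun t : 𝓞 K × 𝓞 K × 𝓞 K => Solution t.1 t.2.1 t.2.2)
        (fun t => height t.1 t.2.1) (fun t => rad t.2.2)
        (fun t ht => Pool.Agent.U624.Ico.one_le_ht ht.equation ht.z_ne_zero)
        (fun t ht => Pool.Agent.U624.Ico.one_le_rad ht.z_ne_zero) (κ := 6) (by norm_num)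
      constructor
      · intro g ε hε
        obtain ⟨c, hc, h1⟩ := this.1 (fun ε hε => by
          obtain ⟨C, hC⟩ := g ε hε
          exact ⟨C, fun t ht => hC _ _ _ ht⟩) ε hε
        exact ⟨c, hc, fun x y z hS => h1 (x, y, z) ((hsol _ _ _).2 hS)⟩
      · intro g ε hε
        obtain ⟨C, hC⟩ := this.2 (fun ε hε => by
          obtain ⟨c, hc, h1⟩ := g ε hε
          exact ⟨c, hc, fun t ht => h1 _ _ _ ((hsol _ _ _).1 ht)⟩) ε hε
        exact ⟨C, fun x y z hS => hC (x, y, z) hS⟩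
    have c4 : RadicalOfForm K ↔ ∀ ε : ℝ, 0 < ε → ∃ c : ℝ, 0 < c ∧ ∀ u v : 𝓞 K, IsCoprime u v →
        f u v ≠ 0 → c * height (T u v) (H u v) ^ (1 / 6 - ε) ≤ rad (f u v) := by
      have := Pool.Agent.U624.Ico.conv (fun t : 𝓞 K × 𝓞 K => IsCoprime t.1 t.2 ∧ f t.1 t.2 ≠ 0)
        (fun t => height (T t.1 t.2) (H t.1 t.2)) (fun t => rad (f t.1 t.2))
        (fun t ht => Pool.Agent.U624.Ico.one_le_ht (Pool.Agent.U624.Ico.syzygy _ _) ht.2)
        (fun t ht => Pool.Agent.U624.Ico.one_le_rad ht.2) (κ := 6) (by norm_num)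
      constructor
      · intro g ε hε
        obtain ⟨c, hc, h1⟩ := this.1 (fun ε hε => by
          obtain ⟨C, hC⟩ := g ε hε
          exact ⟨C, fun t ht => hC _ _ ht.1 ht.2⟩) ε hε
        exact ⟨c, hc, fun u v h2 h3 => h1 (u, v) ⟨h2, h3⟩⟩
      · intro g ε hε
        obtain ⟨C, hC⟩ := this.2 (fun ε hε => by
          obtain ⟨c, hc, h1⟩ := g ε hε
          exact ⟨c, hc, fun t ht => h1 _ _ ht.1 ht.2⟩) ε hε
        exact ⟨C, fun u v h2 h3 => hC (u, v) ⟨h2, h3⟩⟩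
    rw [div_one] at c1 c2
    tfae_have 1 → 2 := by
      intro g ε hε
      obtain ⟨C, hC⟩ := g ε hε
      exact ⟨C, fun t ht _ => hC t ht⟩
    tfae_have 2 → 3 := by
      rw [c2, c3]
      intro g
      refine Pool.Agent.U624.Ico.rad_of_points ?_
      intro ε hε
      obtain ⟨c, hc, h1⟩ := g ε hε
      refine ⟨c, hc, fun a b c' x y z g' hS hga hgb hsum hne hco => ?_⟩
      have htr : Triple (a, b, c') := by
        refine ⟨hsum, hne, ?_⟩
        rw [Ideal.eq_top_iff_one]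
        obtain ⟨r, q, hrq⟩ := hco
        rw [← hrq]
        refine Ideal.add_mem _ (Ideal.mul_mem_left _ _ (Ideal.subset_span (by simp)))
          (Ideal.mul_mem_left _ _ (Ideal.subset_span (by simp)))
      have hfr : FromSolution K (a, b, c') := by
        refine ⟨x, y, z, g', (hsol _ _ _).2 hS, hga, hgb, ?_⟩
        have h2 := hS.eq
        have h3 : g' * (a + b + c') = 0 := by rw [hsum, mul_zero]
        show g' * c' = -(1728 * z ^ 5)
        linear_combination h3 - hga - hgb - h2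
      exact h1 (a, b, c') ⟨htr, hfr⟩
    tfae_have 3 → 4 := by
      intro g ε hε
      obtain ⟨C, hC⟩ := g ε hε
      exact ⟨C, fun u v huv hf => hC _ _ _ ((hsol _ _ _).2 (Pool.Agent.U624.Ico.sol_forms huv hf))⟩
    tfae_have 4 → 1 := by
      rw [c4, c1]
      intro g ε hε
      obtain ⟨c, hc, h1⟩ := Pool.Agent.U624.Ico.abc_of_forms he heh g ε hε
      exact ⟨c, hc, fun t ht => h1 t.1 t.2.1 t.2.2 ht.sum ht.ne (cop_of_triple ht)⟩
    tfae_finish
  · exact fun u v huv hf => (hsol _ _ _).2 (Pool.Agent.U624.Ico.sol_forms huv hf)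
  · exact ⟨_, Pool.Agent.U624.Ico.sharp⟩

end Pool.Agent.Results.MP_2a5a28_nt.IcosahedralEquation
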