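import Pool.Agent.U405.RS.F2
import Pool.Agent.Results.MP_2a5a28_nt.WindowsWithoutExceptions

/-!
# The abc conjecture over the integers of `ℚ(√5)` for all triples with height near a value of `f` at thin sets of arguments

Let `K = ℚ(√5)` and let `H` and `rad` be the height and the radical of the problem. Let `f` be a positive
multiplicative function of at most polynomial growth which for each `a ≥ 1` is injective at the powers `p ^ a` of the
large primes and at most `M p ^ a` there; for example Euler's function or the sum of the divisors. Let `G` have steps
bounded below by a positive constant and growth at most `v ^ d`, for example `α v ^ d` with `α > 0` and `d ≥ 1`. Let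
`κ` be real, `θ ≥ 0` and `e = 20 d / 37 + θ`. ALL triples `a + b + c = 0`, `abc ≠ 0`, of integers of `K` in lowest
terms whose height differs from `G (f v)` by at most `(f v) ^ θ` satisfy `rad > κ H`, for almost all `v` (with a
saving of any power of the logarithm) in each of these sets:

* the values of any integer polynomial without repeated roots, of degree `< 1 / e`;
* the shifted primes `p + a`, `a` any integer, if `e < 1`;
* the intervals `(x, x + y]`, `x^τ ≤ y ≤ x`, for every `τ > e`, `τ ≤ 1`.

Here `κ` is any constant, so the inequality is stronger than the one in question. Proof. The tool `Pool.Agent.U405.RS`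
(weighted Rankin method) shows that the values of `f` at almost all elements of these sets avoid every set with a
power saving. The starting theorem `ExceptionalSet` of this problem bounds the number of the classes of the
exceptional triples with height `≤ X` by `X ^ (20 / 37 + ε)`; this bounds the number of their heights.
-/

set_option autoImplicit false

namespace Pool.Agent.Results.MP_2a5a28_nt.SparseArguments

open NumberField
open ExceptionalSet (Triple height rad)
open WindowsWithoutExceptions (Exc count)
open Pool.Agent.N733.TG (Expanding expanding_pow)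
open Pool.Agent.U405.RS (PM Sparse sparse_set' examples)

/-- all triples `a + b + c = 0`, `abc ≠ 0`, in lowest terms with `|H - G v| ≤ v ^ θ` satisfy `rad > κ H` -/
def Near (K : Type) [Field K] [NumberField K] (κ : ℝ) (G : ℕ → ℝ) (θ : ℝ) (v : ℕ) : Prop :=
  ∀ t : 𝓞 K × 𝓞 K × 𝓞 K, Triple t → |height t - G v| ≤ (v : ℝ) ^ θ → κ * height t < rad t

lemma near_of {K : Type} [Field K] [NumberField K] {κ θ : ℝ} {G : ℕ → ℝ} {v : ℕ}
    (h : ∀ t ∈ Exc K κ, ¬ |t - G v| ≤ (v : ℝ) ^ θ) : Near K κ G θ v := by
  intro t ht hw
  by_contra hcon
  push Not at hcon
  exact h (height t) ⟨t, ht, rfl, hcon⟩ hw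

/-- **The abc conjecture over the integers of `ℚ(√5)` for all triples with height near the values of `f` at thin sets of
arguments.** Let `f` be in the class `PM`, let `G` have steps `≥ const > 0` and growth at most `v ^ d`, `K = ℚ(√5)`,
`κ` real, `θ ≥ 0`. For every `U` the property `Near` holds in the sense `Sparse e f`, `e = 20 d / 37 + θ`: with a
saving of `(log x)^U` it holds at `f v` for almost all `v` among the positive values of every integer polynomial
without repeated roots of degree `< 1 / e`; among the shifted primes `p + a` for every `a`, if `e < 1`; and in all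
intervals `(x, x + y]`, `x^τ ≤ y ≤ x`, `e < τ ≤ 1`. Euler's function, the sum of the divisors and the identity are in
the class, and `α v^d` with `α > 0`, `d ≥ 1` is an example of `G`. -/
theorem result :
    (∀ f : ℕ → ℕ, PM f → ∀ (G : ℕ → ℝ) (d : ℝ), Expanding G d → ∀ (K : Type) [Field K] [NumberField K] (κ : ℝ) (θ : ℝ),
      Module.finrank ℚ K = 2 → (∃ s : K, s ^ 2 = 5) → 0 ≤ θ → ∀ U : ℕ, Sparse (d * (20 / 37) + θ) f (Near K κ G θ) U) ∧
    (PM Nat.totient ∧ PM (fun m => ∑ d ∈ m.divisors, d) ∧ PM (fun m => m)) ∧
    ∀ α d : ℝ, 0 < α → 1 ≤ d → Expanding (fun v => α * (v : ℝ) ^ d) d := by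
  refine ⟨?_, examples, fun α d hα hd => expanding_pow hα hd⟩
  intro f hf G d hG K _ _ κ θ hK h5 hθ U
  exact sparse_set' (Exc K κ) (fun x : ℝ => x) hf hG (s := (20 / 37)) (by norm_num) hθ rfl
    (fun ε hε => count hK h5 κ ε hε) _ U (fun v hv => near_of hv)

end Pool.Agent.Results.MP_2a5a28_nt.SparseArguments
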